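import Mathlib
import Pool.Agent.R36.LexRook

/-!
# Berge graphs without even pairs and without odd pairs of maximal cliques
-/

set_option autoImplicit false

namespace Pool.Agent.Results.MP_42d775_co.OddPairs

open SimpleGraph

/-- `G` is Berge: it contains no odd hole (induced odd cycle with at least 4, hence at least 5,
vertices) and no odd antihole (complement of an odd hole) as an induced subgraph. -/
def Berge {V : Type} (G : SimpleGraph V) : Prop :=
  ∀ n : ℕ, 4 ≤ n → Odd n →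
    ¬ Nonempty (cycleGraph n ↪g G) ∧ ¬ Nonempty ((cycleGraph n)ᶜ ↪g G)

/-- `x`, `y` is an even pair of `G`: two distinct non-adjacent vertices such that every induced path
between them has even length (an induced path with `n` edges is an induced copy of the path graph
on `n + 1` vertices). -/
def EvenPair {V : Type} (G : SimpleGraph V) (x y : V) : Prop :=
  x ≠ y ∧ ¬ G.Adj x y ∧
    ∀ (n : ℕ) (P : pathGraph (n + 1) ↪g G), P 0 = x → P (Fin.last n) = y → Even n

/-- The induced path `P` of `G` (with `n` edges) is external from `K₁` to `K₂`: one end is in `K₁`,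
the other end is in `K₂`, and all other vertices are outside `K₁ ∪ K₂`. For `n = 0` this is a single
vertex of `K₁ ∩ K₂`. -/
def External {V : Type} (G : SimpleGraph V) (K₁ K₂ : Set V) (n : ℕ)
    (P : pathGraph (n + 1) ↪g G) : Prop :=
  P 0 ∈ K₁ ∧ P (Fin.last n) ∈ K₂ ∧
    ∀ j : Fin (n + 1), j ≠ 0 → j ≠ Fin.last n → P j ∉ K₁ ∧ P j ∉ K₂

/-- `K₁`, `K₂` is an odd pair of cliques of `G`: every external induced path from `K₁` to `K₂` has
odd length. -/
def OddCliquePair {V : Type} (G : SimpleGraph V) (K₁ K₂ : Set V) : Prop :=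
  G.IsClique K₁ ∧ G.IsClique K₂ ∧
    ∀ (n : ℕ) (P : pathGraph (n + 1) ↪g G), External G K₁ K₂ n P → Odd n

/-- `G` is a counterexample to the statement: it is a Berge graph with at least two vertices,
neither `G` nor its complement has an even pair, and neither `G` nor its complement has an odd pair
of cliques formed by two of its own maximal cliques. -/
def Counterexample {V : Type} (G : SimpleGraph V) : Prop :=
  Nontrivial V ∧ Berge G ∧ (∀ x y, ¬ EvenPair G x y) ∧ (∀ x y, ¬ EvenPair Gᶜ x y) ∧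
    (∀ K₁ K₂ : Set V, Maximal G.IsClique K₁ → Maximal G.IsClique K₂ → ¬ OddCliquePair G K₁ K₂) ∧
    (∀ K₁ K₂ : Set V, Maximal Gᶜ.IsClique K₁ → Maximal Gᶜ.IsClique K₂ →
      ¬ OddCliquePair Gᶜ K₁ K₂)

open Pool.Agent.R36.Lex Pool.Agent.H171R2.EP

theorem noPair_of_epf {V : Type} {G : SimpleGraph V} (h : EvenPairFree G) (x y : V) :
    ¬ EvenPair G x y := by
  rintro ⟨h1, -, h3⟩
  refine h x y ⟨h1, ?_⟩
  rintro n ⟨f, hf0, hfn⟩
  exact h3 n f hf0 hfn

theorem epf_of_noPair {V : Type} {G : SimpleGraph V} (h : ∀ x y, ¬ EvenPair G x y) :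
    EvenPairFree G := by
  rintro x y ⟨h1, h2⟩
  refine h x y ⟨h1, ?_, fun n P hP0 hPn => h2 n ⟨P, hP0, hPn⟩⟩
  intro hadj
  have := h2 1 ⟨⟨⟨fun i => if i = 0 then x else y, ?_⟩, ?_⟩, ?_, ?_⟩
  · exact absurd this (by decide)
  · intro i j hij
    fin_cases i <;> fin_cases j <;> simp_all
  · intro i j
    rw [pathGraph_adj]
    change G.Adj (if i = 0 then x else y) (if j = 0 then x else y) ↔ _
    fin_cases i <;> fin_cases j <;> simp [hadj, hadj.symm]
  · rfl
  · rfl

/-- a graph with at least two vertices whose complement has no even pair has two nonadjacent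
vertices -/
theorem exists_nonadj {V : Type} {G : SimpleGraph V} [Nontrivial V]
    (h : ∀ x y, ¬ EvenPair Gᶜ x y) : ∃ x y : V, x ≠ y ∧ ¬ G.Adj x y := by
  by_contra hcon
  have hall : ∀ x y : V, x ≠ y → G.Adj x y := by
    intro x y hxy
    by_contra hn
    exact hcon ⟨x, y, hxy, hn⟩
  obtain ⟨x, y, hxy⟩ := exists_pair_ne V
  refine h x y ⟨hxy, ?_, ?_⟩
  · rw [compl_adj]
    exact fun h' => h'.2 (hall x y hxy)
  · intro n P hP0 hPn
    have hn : n ≠ 0 := by
      rintro rfl
      apply hxy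
      rw [← hP0, ← hPn]
      rfl
    exfalso
    have h1 : (pathGraph (n + 1)).Adj ⟨0, by omega⟩ ⟨1, by omega⟩ := by
      rw [pathGraph_adj]
      left
      rfl
    have h2 := (P.map_adj_iff).2 h1
    rw [compl_adj] at h2
    exact h2.2 (hall _ _ h2.1)

/-- the induced path with two edges -/
def path2 {V : Type} {G : SimpleGraph V} {a b c : V} (hab : a ≠ b) (hn : ¬ G.Adj a b)
    (hac : G.Adj a c) (hcb : G.Adj c b) : pathGraph 3 ↪g G where
  toFun := ![a, c, b]
  inj' := by
    have h1 := hac.ne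
    have h2 := hcb.ne
    intro i j hij
    fin_cases i <;> fin_cases j <;> simp_all
  map_rel_iff' := by
    intro i j
    change G.Adj (![a, c, b] i) (![a, c, b] j) ↔ _
    have hn' : ¬ G.Adj b a := fun h => hn h.symm
    rw [pathGraph_adj]
    fin_cases i <;> fin_cases j <;> simp [hac, hcb, hac.symm, hcb.symm, hn, hn']

theorem noOdd_of_even {V : Type} {G : SimpleGraph V} {K₁ K₂ : Set V}
    (h : (∃ a, a ∈ K₁ ∧ a ∈ K₂) ∨ ∃ a b c, a ∈ K₁ ∧ b ∈ K₂ ∧ c ∉ K₁ ∧ c ∉ K₂ ∧ a ≠ b ∧
      ¬ G.Adj a b ∧ G.Adj a c ∧ G.Adj c b) : ¬ OddCliquePair G K₁ K₂ := by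
  rintro ⟨-, -, hodd⟩
  rcases h with ⟨a, ha1, ha2⟩ | ⟨a, b, c, ha, hb, hc1, hc2, hab, hn, hac, hcb⟩
  · have := hodd 0 ⟨⟨fun _ => a, fun i j _ => Fin.ext (by omega)⟩, by
      intro i j
      change G.Adj a a ↔ _
      rw [pathGraph_adj]
      constructor
      · exact fun h => absurd rfl h.ne
      · intro h
        omega⟩ ⟨ha1, ha2, fun j hj => absurd (Fin.ext (by
      rw [Fin.val_zero]
      omega)) hj⟩
    exact absurd this (by decide)
  · have := hodd 2 (path2 hab hn hac hcb) ⟨ha, hb, by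
      intro j hj0 hj2
      have hj1 : j = 1 := by
        fin_cases j
        · exact absurd rfl hj0
        · rfl
        · exact absurd rfl hj2
      subst hj1
      exact ⟨hc1, hc2⟩⟩
    exact absurd this (by decide)

/-- transport of maximal cliques along an isomorphism -/
theorem max_iso {V W : Type} {G : SimpleGraph V} {G' : SimpleGraph W} (φ : G ≃g G') {K : Set V}
    (hK : Maximal G.IsClique K) : Maximal G'.IsClique (φ.symm ⁻¹' K) := by
  refine ⟨?_, ?_⟩
  · intro x hx y hy hxy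
    rw [← φ.symm.map_adj_iff]
    exact hK.1 hx hy (fun h => hxy (φ.symm.injective h))
  · intro S hS hle x hx
    have h1 : G.IsClique (φ ⁻¹' S) := by
      intro a ha b hb hab
      rw [← φ.map_adj_iff]
      exact hS ha hb (fun h => hab (φ.injective h))
    have h2 : K ≤ φ ⁻¹' S := by
      intro a ha
      apply hle
      change φ.symm (φ a) ∈ K
      rw [φ.symm_apply_apply]
      exact ha
    have h3 := hK.2 h1 h2
    apply h3
    change φ (φ.symm x) ∈ S
    rw [φ.apply_symm_apply]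
    exact hx

/-- two maximal cliques never form an odd pair, for graphs isomorphic to `lexRook H` -/
theorem noOdd_iso {V W : Type} {H : SimpleGraph V} (h2 : ∃ x y : V, x ≠ y ∧ ¬ H.Adj x y)
    {G : SimpleGraph W} (φ : G ≃g lexRook H) (K₁ K₂ : Set W) (h₁ : Maximal G.IsClique K₁)
    (h₂ : Maximal G.IsClique K₂) : ¬ OddCliquePair G K₁ K₂ := by
  apply noOdd_of_even
  rcases exists_even h2 (max_iso φ h₁) (max_iso φ h₂) with
    ⟨a, ha1, ha2⟩ | ⟨a, b, c, ha, hb, hc1, hc2, hab, hn, hac, hcb⟩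
  · exact Or.inl ⟨φ.symm a, ha1, ha2⟩
  · refine Or.inr ⟨φ.symm a, φ.symm b, φ.symm c, ha, hb, hc1, hc2, ?_, ?_, ?_, ?_⟩
    · exact fun h => hab (φ.symm.injective h)
    · rw [φ.symm.map_adj_iff]
      exact hn
    · rw [φ.symm.map_adj_iff]
      exact hac
    · rw [φ.symm.map_adj_iff]
      exact hcb

theorem cex_of_iso {V W : Type} [Nontrivial V] {H : SimpleGraph V} (hB : Berge H)
    (h1 : ∀ x y, ¬ EvenPair H x y) (h2 : ∀ x y, ¬ EvenPair Hᶜ x y) {G : SimpleGraph W}
    (φ : G ≃g lexRook H) : Counterexample G := by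
  have hBc : Pool.Agent.H171R2.EP.IsBerge H := hB
  have φ' : Gᶜ ≃g lexRook Hᶜ := (Pool.Agent.Y27.EP.isoCompl φ).trans (lexCompl H).symm
  have hnt : Nontrivial (Fin 9 × V) := inferInstance
  have h2' : ∀ x y, ¬ EvenPair Hᶜᶜ x y := by
    rw [compl_compl]
    exact h1
  refine ⟨φ.toEquiv.nontrivial, Pool.Agent.Y27.EP.berge_of_emb φ.toEmbedding (lex_berge H hBc),
    noPair_of_epf (Pool.Agent.Y27.EP.epf_of_iso φ.symm (lex_epf H (epf_of_noPair h1))),
    noPair_of_epf (Pool.Agent.Y27.EP.epf_of_iso φ'.symm (lex_epf Hᶜ (epf_of_noPair h2))),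
    noOdd_iso (exists_nonadj h2) φ, noOdd_iso (exists_nonadj h2') φ'⟩

/-- Every Berge graph `H` on `m ≥ 2` vertices such that neither `H` nor its complement has an even
pair is an induced subgraph of a counterexample with `9 * m` vertices; and there is a counterexample
on `9 ^ k` vertices for every `k ≥ 2`, the smallest one given here having `81` vertices. -/
theorem result :
    (∀ (m : ℕ) (H : SimpleGraph (Fin m)), 2 ≤ m → Berge H → (∀ x y, ¬ EvenPair H x y) →
      (∀ x y, ¬ EvenPair Hᶜ x y) →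
      ∃ G : SimpleGraph (Fin (9 * m)), Counterexample G ∧ Nonempty (H ↪g G)) ∧
    (∀ k : ℕ, 2 ≤ k → ∃ G : SimpleGraph (Fin (9 ^ k)), Counterexample G) := by
  have main : ∀ (m : ℕ) (H : SimpleGraph (Fin m)), 2 ≤ m → Berge H →
      (∀ x y, ¬ EvenPair H x y) → (∀ x y, ¬ EvenPair Hᶜ x y) →
      ∃ G : SimpleGraph (Fin (9 * m)), Counterexample G ∧ Nonempty (H ↪g G) := by
    intro m H hm hB h1 h2
    have : Nontrivial (Fin m) := Fin.nontrivial_iff_two_le.2 hm
    let G : SimpleGraph (Fin (9 * m)) := (lexRook H).comap finProdFinEquiv.symm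
    have φ : G ≃g lexRook H := ⟨finProdFinEquiv.symm, Iff.rfl⟩
    exact ⟨G, cex_of_iso hB h1 h2 φ, ⟨(fibEmb H 0).trans φ.symm.toEmbedding⟩⟩
  refine ⟨main, ?_⟩
  intro k hk
  induction k, hk using Nat.le_induction with
  | base =>
    obtain ⟨G, hG, -⟩ := main 9 Pool.Agent.Y27.EP.rook (by norm_num) Pool.Agent.Y27.EP.rook_berge
      (noPair_of_epf Pool.Agent.Y27.EP.rook_epf) (noPair_of_epf Pool.Agent.Y27.EP.corook_epf)
    exact ⟨G, hG⟩
  | succ k hk ih =>
    obtain ⟨H, hH⟩ := ih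
    have h2 : 2 ≤ 9 ^ k := le_trans (by norm_num) (Nat.pow_le_pow_right (by norm_num : 1 ≤ 9) hk)
    obtain ⟨G, hG, -⟩ := main (9 ^ k) H h2 hH.2.1 hH.2.2.1 hH.2.2.2.1
    rw [Nat.pow_succ']
    exact ⟨G, hG⟩

end Pool.Agent.Results.MP_42d775_co.OddPairs
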